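import Mathlib

/-!
# Graded Lie algebras with a depth filtration

`G w` is the part of weight `w` of a graded Lie algebra, `D w` the subspace of elements of depth at least
two, `F w` the part of weight `w` of a graded Lie subalgebra which contains the depth one part. Then `F = G` if
and only if `D` is the derived algebra.
-/

set_option autoImplicit false

universe u

namespace Pool.Agent.Q49.GD

variable {L : Type u} [LieRing L] [LieAlgebra ℚ L]

/-- The part of weight `w` of the derived algebra. -/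
def Br (G : ℕ → Submodule ℚ L) (w : ℕ) : Submodule ℚ L :=
  Submodule.span ℚ {z | ∃ i j : ℕ, 0 < i ∧ 0 < j ∧ i + j = w ∧ ∃ x ∈ G i, ∃ y ∈ G j, z = ⁅x, y⁆}

/-- Iterated brackets of total weight `w` of elements of the `S i`. -/
inductive Iter (S : ℕ → Submodule ℚ L) : ℕ → L → Prop
  | of (w : ℕ) (x : L) : x ∈ S w → Iter S w x
  | br (i j : ℕ) (x y : L) : 0 < i → 0 < j → Iter S i x → Iter S j y → Iter S (i + j) ⁅x, y⁆

/-- The part of weight `w` of the Lie algebra generated by the `S i`. -/
def Gen (S : ℕ → Submodule ℚ L) (w : ℕ) : Submodule ℚ L :=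
  Submodule.span ℚ {x | Iter S w x}

/-- The data: `G` a graded Lie algebra, `D` its elements of depth at least two, `F` a graded Lie subalgebra
which contains representatives of the depth one part and whose elements of depth at least two are in its
derived algebra. -/
structure IsDepth (G D F : ℕ → Submodule ℚ L) : Prop where
  D_le : ∀ w, D w ≤ G w
  F_le : ∀ w, F w ≤ G w
  br_F : ∀ i j x y, x ∈ F i → y ∈ F j → ⁅x, y⁆ ∈ F (i + j)
  br_G : ∀ i j x y, x ∈ G i → y ∈ G j → ⁅x, y⁆ ∈ D (i + j)
  depth_one : ∀ w, G w ≤ F w ⊔ D w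
  free : ∀ w, F w ⊓ D w ≤ Br F w

variable {G D F : ℕ → Submodule ℚ L}

lemma Br_mono {G G' : ℕ → Submodule ℚ L} (h : ∀ w, G w ≤ G' w) (w : ℕ) : Br G w ≤ Br G' w := by
  refine Submodule.span_mono ?_
  rintro z ⟨i, j, hi, hj, hw, x, hx, y, hy, rfl⟩
  exact ⟨i, j, hi, hj, hw, x, h i hx, y, h j hy, rfl⟩

lemma Br_le_D (h : IsDepth G D F) (w : ℕ) : Br G w ≤ D w := by
  refine Submodule.span_le.mpr ?_
  rintro z ⟨i, j, hi, hj, rfl, x, hx, y, hy, rfl⟩
  exact h.br_G i j x y hx hy

/-- Equality in the weights up to `n`. -/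
theorem eq_iff_derived (h : IsDepth G D F) (n : ℕ) :
    (∀ w ≤ n, F w = G w) ↔ ∀ w ≤ n, D w = Br G w := by
  constructor
  · intro h1 w hw
    refine le_antisymm ?_ (Br_le_D h w)
    refine le_trans ?_ ((h.free w).trans (Br_mono h.F_le w))
    exact le_inf ((h.D_le w).trans (h1 w hw).ge) le_rfl
  · intro h1 w
    induction w using Nat.strong_induction_on with
    | _ w ih =>
      intro hw
      refine le_antisymm (h.F_le w) ((h.depth_one w).trans (sup_le le_rfl ?_))
      rw [h1 w hw]
      refine Submodule.span_le.mpr ?_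
      rintro z ⟨i, j, hi, hj, rfl, x, hx, y, hy, rfl⟩
      rw [← ih i (by omega) (by omega)] at hx
      rw [← ih j (by omega) (by omega)] at hy
      exact h.br_F i j x y hx hy

lemma lie_mem_span {A B : Set L} {C : Submodule ℚ L} (h : ∀ x ∈ A, ∀ y ∈ B, ⁅x, y⁆ ∈ C) {x y : L}
    (hx : x ∈ Submodule.span ℚ A) (hy : y ∈ Submodule.span ℚ B) : ⁅x, y⁆ ∈ C := by
  induction hx using Submodule.span_induction with
  | mem x hx =>
    induction hy using Submodule.span_induction with
    | mem y hy => exact h x hx y hy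
    | zero => rw [lie_zero]; exact C.zero_mem
    | add y z _ _ h1 h2 => rw [lie_add]; exact C.add_mem h1 h2
    | smul a y _ h1 => rw [lie_smul]; exact C.smul_mem a h1
  | zero => rw [zero_lie]; exact C.zero_mem
  | add x z _ _ h1 h2 => rw [add_lie]; exact C.add_mem h1 h2
  | smul a x _ h1 => rw [smul_lie]; exact C.smul_mem a h1

lemma iter_mem {S : ℕ → Submodule ℚ L} (hG : ∀ i j x y, x ∈ G i → y ∈ G j → ⁅x, y⁆ ∈ G (i + j))
    (hS : ∀ w, S w ≤ G w) {w : ℕ} {x : L} (hx : Iter S w x) : x ∈ G w := by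
  induction hx with
  | of w x hx => exact hS w hx
  | br i j x y _ _ _ _ h1 h2 => exact hG i j x y h1 h2

lemma gen_le {S : ℕ → Submodule ℚ L} (hG : ∀ i j x y, x ∈ G i → y ∈ G j → ⁅x, y⁆ ∈ G (i + j))
    (hS : ∀ w, S w ≤ G w) (w : ℕ) : Gen S w ≤ S w ⊔ Br G w := by
  refine Submodule.span_le.mpr ?_
  intro x hx
  cases hx with
  | of _ _ hx => exact Submodule.mem_sup_left hx
  | br i j x y hi hj h1 h2 =>
    exact Submodule.mem_sup_right (Submodule.subset_span
      ⟨i, j, hi, hj, rfl, x, iter_mem hG hS h1, y, iter_mem hG hS h2, rfl⟩)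

/-- For every choice of complements `S w` of `D w` in `G w`: `D` is the derived algebra in the weights up
to `n` if and only if the `S i` generate `G` in these weights. -/
theorem derived_iff_gen (h : IsDepth G D F) {S : ℕ → Submodule ℚ L} (hS : ∀ w, S w ≤ G w)
    (h1 : ∀ w, G w ≤ S w ⊔ D w) (h2 : ∀ w, S w ⊓ D w = ⊥) (n : ℕ) :
    (∀ w ≤ n, D w = Br G w) ↔ ∀ w ≤ n, G w = Gen S w := by
  have hG : ∀ i j x y, x ∈ G i → y ∈ G j → ⁅x, y⁆ ∈ G (i + j) := fun i j x y hx hy =>
    h.D_le _ (h.br_G i j x y hx hy)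
  have hle : ∀ w, Gen S w ≤ G w := fun w =>
    Submodule.span_le.mpr fun x hx => iter_mem hG hS hx
  constructor
  · intro h3 w
    induction w using Nat.strong_induction_on with
    | _ w ih =>
      intro hw
      refine le_antisymm ((h1 w).trans (sup_le ?_ ?_)) (hle w)
      · exact fun x hx => Submodule.subset_span (Iter.of w x hx)
      · rw [h3 w hw]
        refine Submodule.span_le.mpr ?_
        rintro z ⟨i, j, hi, hj, rfl, x, hx, y, hy, rfl⟩
        rw [ih i (by omega) (by omega)] at hx
        rw [ih j (by omega) (by omega)] at hy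
        exact lie_mem_span (C := Gen S (i + j)) (fun a ha b hb =>
          Submodule.subset_span (Iter.br i j a b hi hj ha hb)) hx hy
  · intro h3 w hw
    refine le_antisymm ?_ (Br_le_D h w)
    intro z hz
    have h4 : z ∈ S w ⊔ Br G w := gen_le hG hS w (h3 w hw ▸ h.D_le w hz)
    obtain ⟨s, hs, b, hb, rfl⟩ := Submodule.mem_sup.mp h4
    have h5 : s ∈ D w := by
      have := (D w).sub_mem hz (Br_le_D h w hb)
      simpa using this
    have h6 : s ∈ S w ⊓ D w := ⟨hs, h5⟩
    rw [h2 w, Submodule.mem_bot] at h6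
    rw [h6, zero_add]
    exact hb

/-- The same with dimensions: `D` is the derived algebra if and only if the abelianization is not larger
than the depth one part. -/
theorem derived_iff_dim (h : IsDepth G D F) (hfin : ∀ w, Module.Finite ℚ (G w)) {e : ℕ → ℕ}
    (he : ∀ w, Module.finrank ℚ (G w) = Module.finrank ℚ (D w) + e w) (w : ℕ) :
    D w = Br G w ↔ Module.finrank ℚ (G w) = Module.finrank ℚ (Br G w) + e w := by
  constructor
  · intro h1
    rw [← h1]
    exact he w
  · intro h1
    have h2 : Module.Finite ℚ (D w) := Submodule.finiteDimensional_of_le (h.D_le w)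
    refine (Submodule.eq_of_le_of_finrank_eq (Br_le_D h w) ?_).symm
    have := he w
    omega

end Pool.Agent.Q49.GD
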