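import Pool.Agent.Q263.ZO.Series

/-!
# The zero-one law for dimensions, for general sequences

The proof is that of our `MP_ec2393_nt.OneWeightDecides`, with an arbitrary sequence in place of the dimensions
of the double shuffle Lie algebra.
-/

set_option autoImplicit false

open Filter Finset

namespace Pool.Agent.Q49.GD.ZeroOne

open Pool.Agent.Q263.ZO

section

variable (l lam : ℕ → ℕ) (hlam : ∀ w, HS.u lam w = HS.c w) (hle : ∀ w, 1 ≤ w → lam w ≤ l w)

include hlam hle

theorem step (n : ℕ) (hn : 1 ≤ n) (hne : l n ≠ lam n) (w : ℕ) (hw : n ≤ w) :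
    HS.c w + HS.u l (w - n) ≤ HS.u l w := by
  let m : ℕ → ℕ := fun i => if i = 0 then l 0 else lam i
  have hm : ∀ i, 1 ≤ i → m i = lam i := fun i hi => if_neg (by omega)
  have h1 : ∀ i, m i ≤ l i := by
    intro i
    rcases Nat.eq_zero_or_pos i with rfl | hi
    · exact le_rfl
    · rw [hm i hi]
      exact hle i hi
  have h2 := HS.step l m h1 n hn (by rw [hm n hn]; exact hne) w hw
  rwa [HS.congr m lam w (fun i hi _ => hm i hi), hlam] at h2

theorem ge (w : ℕ) : HS.c w ≤ HS.u l w := by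
  let m : ℕ → ℕ := fun i => if i = 0 then l 0 else lam i
  have hm : ∀ i, 1 ≤ i → m i = lam i := fun i hi => if_neg (by omega)
  have h1 : ∀ i, m i ≤ l i := by
    intro i
    rcases Nat.eq_zero_or_pos i with rfl | hi
    · exact le_rfl
    · rw [hm i hi]
      exact hle i hi
  have h2 := HS.mono l m h1 w
  rwa [HS.congr m lam w (fun i hi _ => hm i hi), hlam] at h2

theorem step' (n : ℕ) (hn : 1 ≤ n) (hne : l n ≠ lam n) (w : ℕ) (hw : n ≤ w) :
    HS.c w + HS.c (w - n) ≤ HS.u l w := by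
  have h1 := step l lam hlam hle n hn hne w hw
  have h2 := ge l lam hlam hle (w - n)
  omega

theorem sum_le (n : ℕ) (hn : 1 ≤ n) (hne : l n ≠ lam n) (w j : ℕ) (hw : j * n ≤ w) :
    ∑ k ∈ range (j + 1), HS.c (w - k * n) ≤ HS.u l w := by
  induction j generalizing w with
  | zero =>
    rw [zero_add, Finset.sum_range_one, Nat.zero_mul, Nat.sub_zero]
    exact ge l lam hlam hle w
  | succ j ih =>
    have e : (j + 1) * n = j * n + n := by ring
    have h1 := step l lam hlam hle n hn hne w (by omega)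
    have h2 := ih (w - n) (by omega)
    rw [Finset.sum_range_succ', Nat.zero_mul, Nat.sub_zero]
    have h3 : ∑ k ∈ range (j + 1), HS.c (w - (k + 1) * n) = ∑ k ∈ range (j + 1), HS.c (w - n - k * n) := by
      refine Finset.sum_congr rfl fun k _ => ?_
      congr 1
      rw [Nat.sub_sub]
      congr 1
      ring
    rw [h3]
    omega

omit hlam hle in
theorem c_le_pow (n w : ℕ) (hw : n + 5 ≤ w) : HS.c w ≤ 2 ^ n * HS.c (w - n) := by
  have h1 := d_le_pow (w - n - 5) n
  have e1 : HS.c w = d (w - n - 5 + n + 2) := by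
    rw [show w = (w - n - 5 + n + 2) + 3 by omega, HS.c_add]
    congr 1 <;> omega
  have e2 : HS.c (w - n) = d (w - n - 5 + 2) := by
    rw [show w - n = (w - n - 5 + 2) + 3 by omega, HS.c_add]
    congr 1 <;> omega
  rw [e1, e2]
  exact h1

end


/-- The zero-one law. -/
theorem law (l lam : ℕ → ℕ) (hlam : ∀ w, HS.u lam w = HS.c w) (hle : ∀ w, 1 ≤ w → lam w ≤ l w) :
    (HS.c 0 = 1 ∧ ∀ w, 1 ≤ w → HS.c w = ∑ k ∈ (Icc 3 w).filter Odd, HS.c (w - k)) ∧
    (∀ n, 1 ≤ n → l n ≠ lam n → ∀ w, n ≤ w → HS.c w + HS.u l (w - n) ≤ HS.u l w) ∧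
    (∀ n, 1 ≤ n → l n ≠ lam n → ∀ w j, j * n ≤ w →
      ∑ k ∈ range (j + 1), HS.c (w - k * n) ≤ HS.u l w) ∧
    ((∀ w, 1 ≤ w → l w = lam w) ∨ ∃ n, 1 ≤ n ∧ l n ≠ lam n ∧ (∀ w < n, HS.u l w = HS.c w) ∧
      ∀ w, n ≤ w → w ≠ n + 1 → w ≠ n + 2 → w ≠ n + 4 → HS.c w < HS.u l w) ∧
    ((∀ w, 1 ≤ w → l w = lam w) ↔ ∃ᶠ w in atTop, HS.u l w = HS.c w) ∧
    ((∀ w, 1 ≤ w → l w = lam w) ↔
      ∀ ε : ℝ, 0 < ε → ∃ᶠ w in atTop, (HS.u l w : ℝ) < (1 + ε) * HS.c w) ∧
    (∀ n w, 1 ≤ n → n ≤ w → HS.u l w < HS.c w + HS.c (w - n) → l n = lam n) := by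
  have hlt : ∀ n, 1 ≤ n → l n ≠ lam n → ∀ w, n ≤ w → w ≠ n + 1 → w ≠ n + 2 → w ≠ n + 4 →
      HS.c w < HS.u l w := by
    intro n hn hne w hw h1 h2 h4
    have h5 := step' l lam hlam hle n hn hne w hw
    have h6 := HS.c_pos (w - n) (by omega) (by omega) (by omega)
    omega
  have heq : (∀ w, 1 ≤ w → l w = lam w) → ∀ w, HS.u l w = HS.c w := by
    intro h w
    rw [HS.congr l lam w (fun i hi _ => h i hi), hlam]
  refine ⟨⟨by simp [HS.c], HS.c_rec⟩, step l lam hlam hle, sum_le l lam hlam hle, ?_, ?_, ?_, ?_⟩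
  · classical
    by_cases h : ∀ w, 1 ≤ w → l w = lam w
    · exact Or.inl h
    · right
      push Not at h
      have hspec := Nat.find_spec h
      refine ⟨Nat.find h, hspec.1, hspec.2, fun w hw => ?_, hlt _ hspec.1 hspec.2⟩
      rw [HS.congr l lam w (fun i hi hiw => ?_), hlam]
      by_contra hne
      exact Nat.find_min h (lt_of_le_of_lt hiw hw) ⟨hi, hne⟩
  · constructor
    · exact fun h => Frequently.of_forall (heq h)
    · intro h n hn
      by_contra hne
      obtain ⟨w, hw, hw2⟩ := (frequently_atTop.1 h) (n + 5)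
      exact (hlt n hn hne w (by omega) (by omega) (by omega) (by omega)).ne' hw2
  · constructor
    · intro h ε hε
      rw [frequently_atTop]
      intro a
      refine ⟨a + 5, by omega, ?_⟩
      rw [heq h]
      have h1 := HS.c_pos (a + 5) (by omega) (by omega) (by omega)
      have h2 : (1 : ℝ) ≤ HS.c (a + 5) := by exact_mod_cast h1
      nlinarith
    · intro h n hn
      by_contra hne
      obtain ⟨w, hw, hw2⟩ := (frequently_atTop.1 (h ((2 : ℝ) ^ n)⁻¹ (by positivity))) (n + 5)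
      have h1 := step' l lam hlam hle n hn hne w (by omega)
      have h3 := c_le_pow n w hw
      have h4 : (HS.c w : ℝ) + HS.c (w - n) ≤ HS.u l w := by exact_mod_cast h1
      have h5 : (HS.c w : ℝ) ≤ 2 ^ n * HS.c (w - n) := by exact_mod_cast h3
      have h6 : ((2 : ℝ) ^ n)⁻¹ * HS.c w ≤ HS.c (w - n) := by
        rw [inv_mul_le_iff₀ (by positivity)]
        exact h5
      linarith
  · intro n w hn hw h
    by_contra hne
    have := step' l lam hlam hle n hn hne w hw
    omega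


end Pool.Agent.Q49.GD.ZeroOne
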